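import Mathlib

/-!
# EX/NQ (helper547): sums of `1 * χ` over multiples of `q`
-/

set_option autoImplicit false

namespace Pool.Agent.N547.EX.NQ

open Finset

/-- the number of the ideals -/
noncomputable def r (χ : ℕ → ℝ) (n : ℕ) : ℝ := ∑ m ∈ n.divisors, χ m

/-- the ideals whose norm is divisible by `q` -/
noncomputable def M (χ : ℕ → ℝ) (q Y : ℕ) : ℝ := ∑ n ∈ (Icc 1 Y).filter (fun n => q ∣ n), r χ n

theorem r_split (χ : ℕ → ℝ) (hm : ∀ a b, a ≠ 0 → b ≠ 0 → χ (a * b) = χ a * χ b) {p : ℕ}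
    (hp : p.Prime) {n : ℕ} (hn : n ≠ 0) :
    ∑ m ∈ (p * n).divisors.filter (fun m => p ∣ m), χ m = χ p * r χ n := by
  have h1 : (p * n).divisors.filter (fun m => p ∣ m) = n.divisors.image (fun e => p * e) := by
    ext m
    simp only [mem_filter, Nat.mem_divisors, mem_image]
    constructor
    · rintro ⟨⟨h1, h2⟩, e, rfl⟩
      exact ⟨e, ⟨(Nat.mul_dvd_mul_iff_left hp.pos).1 h1, hn⟩, rfl⟩
    · rintro ⟨e, ⟨h1, h2⟩, rfl⟩
      exact ⟨⟨(Nat.mul_dvd_mul_iff_left hp.pos).2 h1, mul_ne_zero hp.ne_zero hn⟩, dvd_mul_right _ _⟩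
  rw [h1, sum_image fun a _ b _ h => Nat.eq_of_mul_eq_mul_left hp.pos h, r, mul_sum]
  refine sum_congr rfl fun e he => ?_
  exact hm p e hp.ne_zero (Nat.pos_of_mem_divisors he).ne'

theorem r_mul (χ : ℕ → ℝ) (hm : ∀ a b, a ≠ 0 → b ≠ 0 → χ (a * b) = χ a * χ b) {p : ℕ}
    (hp : p.Prime) {n : ℕ} (hn : n ≠ 0) :
    r χ (p * n) = (1 + χ p) * r χ n - χ p * (if p ∣ n then r χ (n / p) else 0) := by
  have h1 : r χ (p * n) = ∑ m ∈ (p * n).divisors.filter (fun m => p ∣ m), χ m +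
      ∑ m ∈ (p * n).divisors.filter (fun m => ¬ p ∣ m), χ m := by
    rw [r, sum_filter_add_sum_filter_not]
  have h2 : r χ n = ∑ m ∈ n.divisors.filter (fun m => p ∣ m), χ m +
      ∑ m ∈ n.divisors.filter (fun m => ¬ p ∣ m), χ m := by
    rw [r, sum_filter_add_sum_filter_not]
  have h3 : (p * n).divisors.filter (fun m => ¬ p ∣ m) = n.divisors.filter (fun m => ¬ p ∣ m) := by
    ext m
    simp only [mem_filter, Nat.mem_divisors]
    constructor
    · rintro ⟨⟨h1, -⟩, h3⟩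
      exact ⟨⟨(Nat.Coprime.dvd_mul_left ((Nat.coprime_comm.1
        ((Nat.Prime.coprime_iff_not_dvd hp).2 h3)))).1 h1, hn⟩, h3⟩
    · rintro ⟨⟨h1, -⟩, h3⟩
      exact ⟨⟨h1.mul_left p, mul_ne_zero hp.ne_zero hn⟩, h3⟩
  have h4 : ∑ m ∈ n.divisors.filter (fun m => p ∣ m), χ m =
      χ p * (if p ∣ n then r χ (n / p) else 0) := by
    split_ifs with h
    · obtain ⟨e, rfl⟩ := h
      have he : e ≠ 0 := fun h => hn (by rw [h, mul_zero])
      rw [r_split χ hm hp he, Nat.mul_div_cancel_left _ hp.pos]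
    · rw [mul_zero]
      refine sum_eq_zero fun m hm' => ?_
      rw [mem_filter, Nat.mem_divisors] at hm'
      exact absurd (hm'.2.trans hm'.1.1) h
  rw [h1, h3, r_split χ hm hp hn]
  rw [h4] at h2
  linarith

theorem image_mul {p q Y : ℕ} (hp : p.Prime) :
    (Icc 1 Y).filter (fun n => p * q ∣ n) =
      ((Icc 1 (Y / p)).filter (fun n => q ∣ n)).image (fun n => p * n) := by
  ext n
  simp only [mem_filter, mem_Icc, mem_image]
  constructor
  · rintro ⟨⟨h1, h2⟩, e, rfl⟩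
    rw [mul_assoc] at h1 h2 ⊢
    refine ⟨q * e, ⟨⟨Nat.pos_of_ne_zero fun h => ?_, ?_⟩, dvd_mul_right _ _⟩, rfl⟩
    · rw [h, mul_zero] at h1
      omega
    · rw [Nat.le_div_iff_mul_le hp.pos, mul_comm]
      exact h2
  · rintro ⟨e, ⟨⟨h1, h2⟩, h3⟩, rfl⟩
    rw [Nat.le_div_iff_mul_le hp.pos, mul_comm] at h2
    exact ⟨⟨Nat.mul_pos hp.pos h1, h2⟩, Nat.mul_dvd_mul_left p h3⟩

theorem image_mul' {p q Z : ℕ} (hp : p.Prime) (hpq : ¬ p ∣ q) :
    ((Icc 1 Z).filter (fun n => q ∣ n)).filter (fun n => p ∣ n) =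
      ((Icc 1 (Z / p)).filter (fun n => q ∣ n)).image (fun n => p * n) := by
  rw [← image_mul hp, filter_filter]
  refine filter_congr fun n _ => ?_
  have h := (Nat.Prime.coprime_iff_not_dvd hp).2 hpq
  exact ⟨fun h1 => h.mul_dvd_of_dvd_of_dvd h1.2 h1.1,
    fun h1 => ⟨(dvd_mul_left q p).trans h1, (dvd_mul_right p q).trans h1⟩⟩

theorem M_step (χ : ℕ → ℝ) (hm : ∀ a b, a ≠ 0 → b ≠ 0 → χ (a * b) = χ a * χ b) {p q : ℕ}
    (hp : p.Prime) (hpq : ¬ p ∣ q) (Y : ℕ) :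
    M χ (p * q) Y = (1 + χ p) * M χ q (Y / p) - χ p * M χ q (Y / p / p) := by
  have hinj : ∀ S : Finset ℕ, Set.InjOn (fun n => p * n) (S : Set ℕ) :=
    fun S a _ b _ h => Nat.eq_of_mul_eq_mul_left hp.pos h
  have h1 : M χ (p * q) Y = ∑ n ∈ (Icc 1 (Y / p)).filter (fun n => q ∣ n), r χ (p * n) := by
    rw [M, image_mul hp, sum_image (hinj _)]
  have h2 : ∑ n ∈ (Icc 1 (Y / p)).filter (fun n => q ∣ n), (if p ∣ n then r χ (n / p) else 0) =
      M χ q (Y / p / p) := by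
    rw [← sum_filter, image_mul' hp hpq, sum_image (hinj _), M]
    refine sum_congr rfl fun n _ => ?_
    rw [Nat.mul_div_cancel_left _ hp.pos]
  rw [h1, M, mul_sum, ← h2, mul_sum, ← sum_sub_distrib]
  refine sum_congr rfl fun n hn => ?_
  exact r_mul χ hm hp (by
    have := (mem_Icc.1 (mem_filter.1 hn).1).1
    omega)

/-- the density -/
noncomputable def g (χ : ℕ → ℝ) (p : ℕ) : ℝ := 1 - (1 - 1 / (p : ℝ)) * (1 - χ p / p)

theorem g_mem (χ : ℕ → ℝ) {p : ℕ} (hp : p.Prime) (h : |χ p| ≤ 1) : 0 ≤ g χ p ∧ g χ p ≤ 1 := by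
  have h2 : (2 : ℝ) ≤ p := by exact_mod_cast hp.two_le
  have h3 : 0 < (1 : ℝ) / p := by positivity
  have h4 : (1 : ℝ) / p ≤ 1 / 2 := one_div_le_one_div_of_le (by norm_num) h2
  obtain ⟨h5, h6⟩ := abs_le.1 h
  have h7 : χ p / p = χ p * (1 / p) := by ring
  have a1 : χ p * (1 / (p : ℝ)) ≤ 1 / p := by nlinarith [mul_nonneg (sub_nonneg.2 h6) h3.le]
  have a2 : -(1 / (p : ℝ)) ≤ χ p * (1 / p) := by
    nlinarith [mul_nonneg (by linarith : 0 ≤ 1 + χ p) h3.le]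
  have a3 : (0 : ℝ) ≤ 1 - 1 / (p : ℝ) := by linarith
  have a4 : (1 - 1 / (p : ℝ)) * (1 - χ p * (1 / p)) ≤ (1 - 1 / (p : ℝ)) * (1 + 1 / p) :=
    mul_le_mul_of_nonneg_left (by linarith) a3
  have a5 : 0 ≤ (1 - 1 / (p : ℝ)) * (1 - χ p * (1 / p)) := mul_nonneg a3 (by linarith)
  unfold g
  rw [h7]
  constructor <;> nlinarith

theorem prod_g_mem (χ : ℕ → ℝ) (hχ : ∀ p : ℕ, p.Prime → |χ p| ≤ 1) (q : ℕ) :
    0 ≤ ∏ p ∈ q.primeFactors, g χ p ∧ ∏ p ∈ q.primeFactors, g χ p ≤ 1 := by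
  have h : ∀ p ∈ q.primeFactors, 0 ≤ g χ p ∧ g χ p ≤ 1 := fun p hp =>
    g_mem χ (Nat.prime_of_mem_primeFactors hp) (hχ p (Nat.prime_of_mem_primeFactors hp))
  exact ⟨prod_nonneg fun p hp => (h p hp).1, prod_le_one (fun p hp => (h p hp).1)
    fun p hp => (h p hp).2⟩

theorem flo (Y a : ℕ) (ha : 0 < a) : |((Y / a : ℕ) : ℝ) - (Y : ℝ) / a| ≤ 1 := by
  have ha' : (0 : ℝ) < a := by exact_mod_cast ha
  have h1 : ((Y / a : ℕ) : ℝ) ≤ (Y : ℝ) / a := Nat.cast_div_le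
  have h2 : (Y : ℝ) / a ≤ ((Y / a : ℕ) : ℝ) + 1 := by
    rw [div_le_iff₀ ha']
    have h3 := Nat.lt_mul_div_succ Y ha
    have h4 : (Y : ℝ) < a * ((Y / a : ℕ) + 1) := by exact_mod_cast h3
    linarith
  rw [abs_le]
  constructor <;> linarith

theorem ind (χ : ℕ → ℝ) (hm : ∀ a b, a ≠ 0 → b ≠ 0 → χ (a * b) = χ a * χ b)
    (hχ : ∀ p : ℕ, p.Prime → |χ p| ≤ 1) (L e : ℝ) (N₀ D : ℕ)
    (hb : ∀ y : ℕ, N₀ ≤ y → y ≤ D → |M χ 1 y - L * y| ≤ e * y) (he : 0 ≤ e) (q : ℕ) :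
    Squarefree q → ∀ Y : ℕ, N₀ * q ^ 2 ≤ Y → Y ≤ D →
    |M χ q Y - L * Y * ∏ p ∈ q.primeFactors, g χ p| ≤
      (∏ p ∈ q.primeFactors, (2 / (p : ℝ) + 1 / (p : ℝ) ^ 2)) * (e * Y) +
        (4 ^ q.primeFactors.card - 1) * |L| := by
  induction q using induction_on_primes with
  | zero => intro h; exact absurd h not_squarefree_zero
  | one =>
    intro _ Y h1 h2
    have h3 := hb Y (by simpa using h1) h2
    simpa using h3
  | prime_mul p q hp ih =>
    intro hsq Y hY hYD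
    have hq : Squarefree q := hsq.squarefree_of_dvd (dvd_mul_left q p)
    have hpq : ¬ p ∣ q := fun h => by
      have h1 : p * p ∣ p * q := Nat.mul_dvd_mul_left p h
      exact hp.one_lt.ne' (Nat.isUnit_iff.1 (hsq p h1))
    have hq0 : q ≠ 0 := hq.ne_zero
    have hpf : (p * q).primeFactors = insert p q.primeFactors := by
      rw [Nat.primeFactors_mul hp.ne_zero hq0, hp.primeFactors, insert_eq]
    have hnm : p ∉ q.primeFactors := fun h => hpq (Nat.dvd_of_mem_primeFactors h)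
    have hp0 : (0 : ℝ) < p := by exact_mod_cast hp.pos
    have hdd : Y / p / p = Y / (p * p) := Nat.div_div_eq_div_mul Y p p
    have hY2 : N₀ * q ^ 2 ≤ Y / p / p := by
      rw [hdd, Nat.le_div_iff_mul_le (Nat.mul_pos hp.pos hp.pos)]
      calc N₀ * q ^ 2 * (p * p) = N₀ * (p * q) ^ 2 := by ring
        _ ≤ Y := hY
    have hY1 : N₀ * q ^ 2 ≤ Y / p := hY2.trans (Nat.div_le_self _ _)
    have i1 := ih hq (Y / p) hY1 ((Nat.div_le_self _ _).trans hYD)
    have i2 := ih hq (Y / p / p) hY2 ((Nat.div_le_self _ _).trans ((Nat.div_le_self _ _).trans hYD))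
    rw [M_step χ hm hp hpq, hpf, prod_insert hnm, prod_insert hnm, card_insert_of_notMem hnm]
    obtain ⟨hG0, hG1⟩ := prod_g_mem χ hχ q
    set G : ℝ := ∏ p ∈ q.primeFactors, g χ p with hG
    set A : ℝ := ∏ p ∈ q.primeFactors, (2 / (p : ℝ) + 1 / (p : ℝ) ^ 2) with hA
    have hA0 : 0 ≤ A := prod_nonneg fun p _ => by positivity
    set w : ℕ := q.primeFactors.card with hw
    have hc := hχ p hp
    obtain ⟨hc1, hc2⟩ := abs_le.1 hc
    have f1 := flo Y p hp.pos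
    have f2 := flo Y (p * p) (Nat.mul_pos hp.pos hp.pos)
    rw [← hdd] at f2
    have hy1 : ((Y / p : ℕ) : ℝ) ≤ (Y : ℝ) / p := Nat.cast_div_le
    have hy2 : ((Y / p / p : ℕ) : ℝ) ≤ (Y : ℝ) / (p * p) := by
      rw [hdd]
      calc ((Y / (p * p) : ℕ) : ℝ) ≤ (Y : ℝ) / ((p * p : ℕ) : ℝ) := Nat.cast_div_le
        _ = _ := by push_cast; ring
    push_cast at f2
    set a : ℝ := ((Y / p : ℕ) : ℝ) with ha
    set b : ℝ := ((Y / p / p : ℕ) : ℝ) with hb'
    set m1 : ℝ := M χ q (Y / p)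
    set m2 : ℝ := M χ q (Y / p / p)
    have hkey : (1 + χ p) * m1 - χ p * m2 - L * Y * (g χ p * G) =
        (1 + χ p) * (m1 - L * a * G) - χ p * (m2 - L * b * G) +
          L * G * ((1 + χ p) * (a - Y / p) - χ p * (b - Y / (p * p))) := by
      unfold g
      field_simp
      ring
    have k1 : |(1 + χ p) * (m1 - L * a * G)| ≤ 2 * (A * (e * a) + (4 ^ w - 1) * |L|) := by
      rw [abs_mul]
      refine mul_le_mul ?_ i1 (abs_nonneg _) (by norm_num)
      rw [abs_le]; constructor <;> linarith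
    have k2 : |χ p * (m2 - L * b * G)| ≤ 1 * (A * (e * b) + (4 ^ w - 1) * |L|) := by
      rw [abs_mul]
      exact mul_le_mul hc i2 (abs_nonneg _) (by norm_num)
    have k3 : |L * G * ((1 + χ p) * (a - Y / p) - χ p * (b - Y / (p * p)))| ≤ |L| * 3 := by
      rw [abs_mul, abs_mul, abs_of_nonneg hG0]
      have h1 : |(1 + χ p) * (a - Y / p) - χ p * (b - Y / (p * p))| ≤ 3 := by
        have h2 : |(1 + χ p) * (a - Y / p)| ≤ 2 * 1 := by
          rw [abs_mul]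
          refine mul_le_mul ?_ f1 (abs_nonneg _) (by norm_num)
          rw [abs_le]; constructor <;> linarith
        have h3 : |χ p * (b - Y / (p * p))| ≤ 1 * 1 := by
          rw [abs_mul]
          exact mul_le_mul hc f2 (abs_nonneg _) (by norm_num)
        have h4 := abs_sub ((1 + χ p) * (a - Y / p)) (χ p * (b - Y / (p * p)))
        linarith
      calc |L| * G * |(1 + χ p) * (a - Y / p) - χ p * (b - Y / (p * p))| ≤ |L| * 1 * 3 :=
            mul_le_mul (mul_le_mul_of_nonneg_left hG1 (abs_nonneg _)) h1 (abs_nonneg _)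
              (by positivity)
        _ = |L| * 3 := by ring
    rw [hkey]
    have k4 := abs_add_le ((1 + χ p) * (m1 - L * a * G) - χ p * (m2 - L * b * G))
      (L * G * ((1 + χ p) * (a - Y / p) - χ p * (b - Y / (p * p))))
    have k5 := abs_sub ((1 + χ p) * (m1 - L * a * G)) (χ p * (m2 - L * b * G))
    have k6 : A * (e * a) ≤ A * (e * (Y / p)) := by gcongr
    have k7 : A * (e * b) ≤ A * (e * (Y / (p * p))) := by gcongr
    have k8 : (2 / (p : ℝ) + 1 / (p : ℝ) ^ 2) * A * (e * Y) =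
        2 * (A * (e * (Y / p))) + A * (e * (Y / (p * p))) := by
      field_simp
    have k9 : (1 : ℝ) ≤ 4 ^ w := one_le_pow₀ (by norm_num)
    have k10 : (0 : ℝ) ≤ |L| := abs_nonneg L
    rw [k8, pow_succ]
    nlinarith

theorem prod_le (q : ℕ) : ∏ p ∈ q.primeFactors, (2 / (p : ℝ) + 1 / (p : ℝ) ^ 2) ≤ 5 / 4 := by
  have h1 : ∏ p ∈ q.primeFactors, (2 / (p : ℝ) + 1 / (p : ℝ) ^ 2) ≤
      ∏ p ∈ q.primeFactors, (if p = 2 then (5 / 4 : ℝ) else 1) := by
    refine prod_le_prod (fun p _ => by positivity) fun p hp => ?_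
    have hpp := Nat.prime_of_mem_primeFactors hp
    split_ifs with h
    · rw [h]; norm_num
    · have h3 : 3 ≤ p := by
        have := hpp.two_le
        omega
      have h4 : (3 : ℝ) ≤ p := by exact_mod_cast h3
      have h5 : (1 : ℝ) / p ≤ 1 / 3 := one_div_le_one_div_of_le (by norm_num) h4
      have h6 : 0 < (1 : ℝ) / p := by positivity
      have h7 : 2 / (p : ℝ) + 1 / (p : ℝ) ^ 2 = 2 * (1 / p) + (1 / p) ^ 2 := by ring
      rw [h7]
      nlinarith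
  refine h1.trans ?_
  rw [prod_ite_eq' q.primeFactors 2 (fun _ => (5 / 4 : ℝ))]
  split_ifs <;> norm_num

theorem four_pow {q : ℕ} (hq : Squarefree q) : (4 : ℝ) ^ q.primeFactors.card ≤ (q : ℝ) ^ 2 := by
  have h1 : (q : ℝ) = ∏ p ∈ q.primeFactors, (p : ℝ) := by
    rw [← Nat.cast_prod, Nat.prod_primeFactors_of_squarefree hq]
  rw [← prod_const, h1, ← prod_pow]
  refine prod_le_prod (fun _ _ => by norm_num) fun p hp => ?_
  have h2 : (2 : ℝ) ≤ p := by exact_mod_cast (Nat.prime_of_mem_primeFactors hp).two_le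
  nlinarith

end Pool.Agent.N547.EX.NQ
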