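import Mathlib
import Pool.Agent.N71.EX.Stm
import Pool.Agent.N547.EX.NQA

/-!
# EX/NQ (helper547): the number of ideals of norm at most `Y` and divisible by `q`
-/

set_option autoImplicit false

namespace Pool.Agent.N547.EX

open Finset Filter Pool.Agent.H38R2.CG Pool.Agent.N71.EX Pool.Agent.N547.EX.NQ

/-- the character as a real function -/
noncomputable def cx (D : ℕ) (n : ℕ) : ℝ := (chi D n : ℝ)

theorem cx_mul (D : ℕ) (a b : ℕ) (ha : a ≠ 0) (hb : b ≠ 0) : cx D (a * b) = cx D a * cx D b := by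
  unfold cx
  rw [Pool.Agent.H38R2.CG.N2h.chi_mul _ ha hb]
  push_cast
  rfl

theorem cx_abs (D p : ℕ) (hp : p.Prime) : |cx D p| ≤ 1 := by
  unfold cx
  rcases Pool.Agent.H38R2.CG.N2h.chi_prime (D : ℤ) hp with h | h | h <;> rw [h] <;> norm_num

theorem M_one (D x : ℕ) : M (cx D) 1 x = ∑ n ∈ Icc 1 x, rr D n := by
  unfold M
  rw [filter_true_of_mem fun n _ => one_dvd n]
  rfl

/-- the base case, for all `D` -/
theorem base (hNAS : E_NAS) (η : ℝ) (hη : 0 < η) : ∃ δ C : ℝ, 0 < δ ∧ 0 < C ∧ ∀ D : ℕ, IsFund D →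
    ∀ x : ℕ, ⌊(D : ℝ) ^ (1 / 4 + η)⌋₊ ≤ x → x ≤ D →
      |M (cx D) 1 x - Lone D * x| ≤ C * (D : ℝ) ^ (-δ) * x := by
  obtain ⟨δ, C, hδ, hC, h⟩ := hNAS (η / 2) (by positivity)
  have ht : Tendsto (fun D : ℕ => (D : ℝ) ^ (η / 2)) atTop atTop :=
    (tendsto_rpow_atTop (by positivity)).comp tendsto_natCast_atTop_atTop
  obtain ⟨D₀, hD₀⟩ := eventually_atTop.1 (ht.eventually_ge_atTop 2)
  set S : ℝ := ∑ d ∈ range (D₀ + 1), ∑ x ∈ range (D₀ + 1),
    |M (cx d) 1 x - Lone d * x| * (d : ℝ) ^ δ with hS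
  have hS0 : 0 ≤ S := sum_nonneg fun d _ => sum_nonneg fun x _ =>
    mul_nonneg (abs_nonneg _) (Real.rpow_nonneg (Nat.cast_nonneg _) _)
  refine ⟨δ, C + S, hδ, by positivity, fun D hD x hx hxD => ?_⟩
  have hD1 : (1 : ℝ) < D := by exact_mod_cast hD.1
  have hD0 : (0 : ℝ) < D := by linarith
  have hpos : 0 < (D : ℝ) ^ (-δ) := Real.rpow_pos_of_pos hD0 _
  have hx1 : 1 ≤ x := by
    refine le_trans ?_ hx
    rw [Nat.one_le_floor_iff]
    exact Real.one_le_rpow hD1.le (by positivity)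
  have hx1' : (1 : ℝ) ≤ x := by exact_mod_cast hx1
  rcases le_or_gt D₀ D with hb | hb
  · have h1 := hD₀ D hb
    have h2 : (D : ℝ) ^ (1 / 4 + η / 2) ≤ x := by
      have h3 : (D : ℝ) ^ (1 / 4 + η) = (D : ℝ) ^ (1 / 4 + η / 2) * (D : ℝ) ^ (η / 2) := by
        rw [← Real.rpow_add hD0]
        congr 1
        ring
      have h4 : (1 : ℝ) ≤ (D : ℝ) ^ (1 / 4 + η / 2) := Real.one_le_rpow hD1.le (by positivity)
      have h5 : (D : ℝ) ^ (1 / 4 + η) < ⌊(D : ℝ) ^ (1 / 4 + η)⌋₊ + 1 := Nat.lt_floor_add_one _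
      have h6 : ((⌊(D : ℝ) ^ (1 / 4 + η)⌋₊ : ℕ) : ℝ) ≤ x := by exact_mod_cast hx
      nlinarith
    have h3 := h D hD x h2 hxD
    rw [← M_one] at h3
    refine h3.trans ?_
    have h4 : 0 ≤ S * (D : ℝ) ^ (-δ) * x := by positivity
    nlinarith
  · have h1 : |M (cx D) 1 x - Lone D * x| * (D : ℝ) ^ δ ≤ S := by
      refine le_trans ?_ (single_le_sum (f := fun d : ℕ => ∑ x ∈ range (D₀ + 1),
        |M (cx d) 1 x - Lone d * x| * (d : ℝ) ^ δ) (fun d _ => sum_nonneg fun x _ => by positivity)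
        (mem_range.2 (by omega : D < D₀ + 1)))
      exact single_le_sum (f := fun x : ℕ => |M (cx D) 1 x - Lone D * x| * (D : ℝ) ^ δ)
        (fun x _ => by positivity) (mem_range.2 (by omega : x < D₀ + 1))
    have h2 : (D : ℝ) ^ δ * (D : ℝ) ^ (-δ) = 1 := by
      rw [← Real.rpow_add hD0, add_neg_cancel, Real.rpow_zero]
    have h3 : |M (cx D) 1 x - Lone D * x| =
        |M (cx D) 1 x - Lone D * x| * (D : ℝ) ^ δ * (D : ℝ) ^ (-δ) := by
      rw [mul_assoc, h2, mul_one]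
    rw [h3]
    have h4 := mul_le_mul_of_nonneg_right h1 hpos.le
    have h5 : S * (D : ℝ) ^ (-δ) ≤ S * (D : ℝ) ^ (-δ) * x :=
      le_mul_of_one_le_right (mul_nonneg hS0 hpos.le) hx1'
    have h6 : 0 ≤ C * (D : ℝ) ^ (-δ) * x := by positivity
    nlinarith

theorem Lone_abs : ∃ C : ℝ, 0 < C ∧ ∀ D : ℕ, IsFund D → |Lone D| ≤ C * (D : ℝ) ^ (1 / 4 : ℝ) := by
  have hN3a : P_N3a := T_N3a T_KR T_PV
  obtain ⟨C₁, hC₁, h₁⟩ := Pool.Agent.R345.IX.Lone_le hN3a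
  obtain ⟨C, hC, h⟩ := hN3a
  refine ⟨5 * (C + C₁ + 2), by positivity, fun D hD => ?_⟩
  have hD1 : 1 < D := hD.1
  have hDr : (1 : ℝ) < D := by exact_mod_cast hD1
  have hlog : 0 ≤ Real.log D := Real.log_natCast_nonneg D
  have h2 := h D hD D hD1.le
  have h3 : C * √(D : ℝ) * Real.log D / D ≤ C * Real.log D := by
    rw [div_le_iff₀ (by linarith)]
    have h3 : √(D : ℝ) ≤ D := by
      rw [Real.sqrt_le_left (by linarith)]
      nlinarith
    have h4 : 0 ≤ C * Real.log D := by positivity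
    nlinarith
  have h4 : |∑ n ∈ Icc 1 D, (chi D n : ℝ) / n| ≤ 1 + Real.log D := by
    calc |∑ n ∈ Icc 1 D, (chi D n : ℝ) / n| ≤ ∑ n ∈ Icc 1 D, |(chi D n : ℝ) / n| :=
          abs_sum_le_sum_abs _ _
      _ ≤ ∑ n ∈ Icc 1 D, (1 : ℝ) / n := by
          refine sum_le_sum fun n hn => ?_
          have hn0 : n ≠ 0 := by
            have := (mem_Icc.1 hn).1
            omega
          rw [abs_div, Nat.abs_cast]
          refine div_le_div_of_nonneg_right ?_ (Nat.cast_nonneg _)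
          have h5 : ∀ m : ℕ, m ≠ 0 → |cx D m| ≤ 1 := by
            intro m
            induction m using induction_on_primes with
            | zero => intro h; exact absurd rfl h
            | one =>
              intro _
              unfold cx
              rw [Pool.Agent.H38R2.CG.N2h.chi_one]
              norm_num
            | prime_mul p m hp ih =>
              intro h6
              have h7 : m ≠ 0 := right_ne_zero_of_mul h6
              rw [cx_mul D p m hp.ne_zero h7, abs_mul]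
              exact mul_le_one₀ (cx_abs D p hp) (abs_nonneg _) (ih h7)
          exact h5 n hn0
      _ ≤ 1 + Real.log D := by
          have h8 := harmonic_le_one_add_log D
          rw [harmonic_eq_sum_Icc] at h8
          push_cast at h8
          simpa [one_div] using h8
  have h5 : |Lone D| ≤ (C + C₁ + 2) * (1 + Real.log D) := by
    have h6 := abs_sub_abs_le_abs_sub (Lone D) (∑ n ∈ Icc 1 D, (chi D n : ℝ) / n)
    nlinarith
  have h6 : Real.log D ≤ 4 * (D : ℝ) ^ (1 / 4 : ℝ) := by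
    have := Real.log_le_rpow_div (by linarith : (0 : ℝ) ≤ D) (by norm_num : (0 : ℝ) < 1 / 4)
    linarith
  have h7 : (1 : ℝ) ≤ (D : ℝ) ^ (1 / 4 : ℝ) := Real.one_le_rpow hDr.le (by norm_num)
  calc |Lone D| ≤ (C + C₁ + 2) * (1 + Real.log D) := h5
    _ ≤ (C + C₁ + 2) * (5 * (D : ℝ) ^ (1 / 4 : ℝ)) :=
        mul_le_mul_of_nonneg_left (by linarith) (by positivity)
    _ = _ := by ring

/-- NQ: the number of ideals of norm at most `Y` and divisible by the squarefree number `q`. -/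
theorem t_NQ (hNAS : E_NAS) : E_NQ := by
  intro η hη
  obtain ⟨δ, C, hδ, hC, hb⟩ := base hNAS η hη
  obtain ⟨CL, hCL, hL⟩ := Lone_abs
  refine ⟨min δ η, 5 / 4 * C + CL, lt_min hδ hη, by positivity, fun D hD q Y hq hY hYD => ?_⟩
  have hD1 : (1 : ℝ) < D := by exact_mod_cast hD.1
  have hD0 : (0 : ℝ) < D := by linarith
  have hN : ⌊(D : ℝ) ^ (1 / 4 + η)⌋₊ * q ^ 2 ≤ Y := by
    have h1 : ((⌊(D : ℝ) ^ (1 / 4 + η)⌋₊ : ℕ) : ℝ) ≤ (D : ℝ) ^ (1 / 4 + η) :=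
      Nat.floor_le (by positivity)
    have h2 : ((⌊(D : ℝ) ^ (1 / 4 + η)⌋₊ : ℕ) : ℝ) * (q : ℝ) ^ 2 ≤ Y :=
      (mul_le_mul_of_nonneg_right h1 (by positivity)).trans hY
    exact_mod_cast h2
  have h1 := ind (cx D) (cx_mul D) (cx_abs D) (Lone D) (C * (D : ℝ) ^ (-δ)) _ D
    (fun y h1 h2 => hb D hD y h1 h2) (by positivity) q hq Y hN hYD
  have h2 : ∑ n ∈ (Icc 1 Y).filter (fun n => q ∣ n), rr D n - Lone D * Y * ∏ p ∈ q.primeFactors,
      gg D p = M (cx D) q Y - Lone D * Y * ∏ p ∈ q.primeFactors, g (cx D) p := by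
    unfold M r rr gg g cx
    congr 1
  rw [h2]
  refine h1.trans ?_
  have hY0 : (0 : ℝ) ≤ Y := Nat.cast_nonneg _
  have h3 : (∏ p ∈ q.primeFactors, (2 / (p : ℝ) + 1 / (p : ℝ) ^ 2)) * (C * (D : ℝ) ^ (-δ) * Y) ≤
      5 / 4 * (C * (D : ℝ) ^ (-δ) * Y) :=
    mul_le_mul_of_nonneg_right (prod_le q) (by positivity)
  have h4 : ((4 : ℝ) ^ q.primeFactors.card - 1) * |Lone D| ≤ CL * (D : ℝ) ^ (-η) * Y := by
    have h5 := four_pow hq
    have h6 := hL D hD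
    have h7 : (D : ℝ) ^ (1 / 4 + η) = (D : ℝ) ^ (1 / 4 : ℝ) * (D : ℝ) ^ η := Real.rpow_add hD0 _ _
    have h8 : (D : ℝ) ^ η * (D : ℝ) ^ (-η) = 1 := by
      rw [← Real.rpow_add hD0, add_neg_cancel, Real.rpow_zero]
    have h9 : 0 < (D : ℝ) ^ (-η) := Real.rpow_pos_of_pos hD0 _
    calc ((4 : ℝ) ^ q.primeFactors.card - 1) * |Lone D| ≤ (q : ℝ) ^ 2 * |Lone D| :=
          mul_le_mul_of_nonneg_right (by linarith) (abs_nonneg _)
      _ ≤ (q : ℝ) ^ 2 * (CL * (D : ℝ) ^ (1 / 4 : ℝ)) :=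
          mul_le_mul_of_nonneg_left h6 (by positivity)
      _ = CL * (D : ℝ) ^ (-η) * ((D : ℝ) ^ (1 / 4 : ℝ) * (D : ℝ) ^ η * (q : ℝ) ^ 2) := by
          rw [show CL * (D : ℝ) ^ (-η) * ((D : ℝ) ^ (1 / 4 : ℝ) * (D : ℝ) ^ η * (q : ℝ) ^ 2) =
            (q : ℝ) ^ 2 * (CL * (D : ℝ) ^ (1 / 4 : ℝ)) * ((D : ℝ) ^ η * (D : ℝ) ^ (-η)) by ring, h8,
            mul_one]
      _ ≤ CL * (D : ℝ) ^ (-η) * Y := by
          rw [← h7]
          exact mul_le_mul_of_nonneg_left hY (by positivity)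
  have h5 : (D : ℝ) ^ (-δ) ≤ (D : ℝ) ^ (-min δ η) :=
    Real.rpow_le_rpow_of_exponent_le hD1.le (neg_le_neg (min_le_left _ _))
  have h6 : (D : ℝ) ^ (-η) ≤ (D : ℝ) ^ (-min δ η) :=
    Real.rpow_le_rpow_of_exponent_le hD1.le (neg_le_neg (min_le_right _ _))
  calc (∏ p ∈ q.primeFactors, (2 / (p : ℝ) + 1 / (p : ℝ) ^ 2)) * (C * (D : ℝ) ^ (-δ) * Y) +
        ((4 : ℝ) ^ q.primeFactors.card - 1) * |Lone D| ≤
        5 / 4 * (C * (D : ℝ) ^ (-δ) * Y) + CL * (D : ℝ) ^ (-η) * Y := add_le_add h3 h4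
    _ ≤ 5 / 4 * (C * (D : ℝ) ^ (-min δ η) * Y) + CL * (D : ℝ) ^ (-min δ η) * Y := by gcongr
    _ = (5 / 4 * C + CL) * (D : ℝ) ^ (-min δ η) * Y := by ring

end Pool.Agent.N547.EX
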